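import Pool.Agent.H17.CX.Targets

/-!
# CNX: a form which is a common denominator (row GCN)
-/

set_option autoImplicit false

open MvPolynomial SC Pool.Agent.H27.LV
open Pool.Agent.H92.SF Pool.Agent.H3.SF Pool.Agent.H17.SD Pool.Agent.H17.SFG Pool.Agent.H17.CX

namespace Pool.Agent.H48.CNX

theorem pf_GCN (hINE : T_INE) (hRGF : T_RGF) : T_GCN := by
  intro k F σ LL _ _ _ _ _ _ _ _ X dd m G g Q ρ W c hS hC hN
  have hQ := hC.prime
  obtain ⟨dc, hdc⟩ : ∃ dc : ℕ, homogeneousComponent dc c ∉ Q := by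
    by_contra hcon
    push Not at hcon
    apply hN.cn
    rw [← sum_homogeneousComponent c]
    exact Q.sum_mem fun i _ => hcon i
  refine ⟨dc, homogeneousComponent dc c, homogeneousComponent_isHomogeneous dc c, hdc, ?_⟩
  intro t j a p b ha hjt hR z hz
  have hint := hINE k F σ LL X dd m G g Q ρ W c hS hC hN t j a p b ha hR z hz
  obtain ⟨b0, hb0⟩ := hN.cnd z hint
  obtain ⟨d, e, p1, b1, hp1, hb1, hR1, hdeg, hpb⟩ :=
    hRGF k F σ X m G g Q hS.cone.hmg hS.hG hS.G0 hC t j a p b ha hR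
  have hρp : ρ p ≠ 0 := fun h => hR.1 ((hN.ker p).1 h)
  have hρp1 : ρ p1 ≠ 0 := fun h => hR1.1 ((hN.ker p1).1 h)
  have hker : ∀ f g' : MvPolynomial σ k, f - g' ∈ Q → ρ f = ρ g' := by
    intro f g' h
    have h1 := (hN.ker _).2 h
    rwa [map_sub, sub_eq_zero] at h1
  have h1 : ρ b1 = ρ p1 * z := by
    have h2 : ρ (p * b1) = ρ (p1 * b) :=
      hker _ _ (hC.ker _ (by rw [map_sub, hpb, sub_self]))
    rw [map_mul, map_mul, ← hz] at h2
    have h3 : ρ p * ρ b1 = ρ p * (ρ p1 * z) := by rw [h2]; ring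
    exact mul_left_cancel₀ hρp h3
  rcases hdeg with h0 | hdeg
  · have hz0 : z = 0 := by
      rw [h0, map_zero] at h1
      rcases mul_eq_zero.1 h1.symm with h | h
      · exact absurd h hρp1
      · exact h
    rw [hz0, mul_zero]
    exact Submodule.zero_mem _
  · have he : e = d + (t - j * m) := by omega
    set r : ℕ := t - j * m with hr
    have h2 : c * b1 - b0 * p1 ∈ Q := by
      rw [← hN.ker, map_sub, map_mul, map_mul, h1, ← hb0]
      ring
    have h3 : homogeneousComponent (dc + e) (c * b1 - b0 * p1) ∈ Q := hC.hom _ h2 _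
    rw [map_sub, hc_mul c b1 hb1 dc] at h3
    have h4 : dc + e = (r + dc) + d := by omega
    rw [h4, hc_mul b0 p1 hp1 (r + dc)] at h3
    have h5 := hker _ _ h3
    rw [map_mul, map_mul, h1] at h5
    have h6 : ρ p1 * (ρ (homogeneousComponent dc c) * z) =
        ρ p1 * ρ (homogeneousComponent (r + dc) b0) := by
      calc ρ p1 * (ρ (homogeneousComponent dc c) * z)
          = ρ (homogeneousComponent dc c) * (ρ p1 * z) := by ring
        _ = ρ (homogeneousComponent (r + dc) b0) * ρ p1 := h5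
        _ = ρ p1 * ρ (homogeneousComponent (r + dc) b0) := by ring
    have h7 := mul_left_cancel₀ hρp1 h6
    refine Submodule.mem_map.2 ⟨homogeneousComponent (r + dc) b0, ?_, ?_⟩
    · exact homogeneousComponent_isHomogeneous _ _
    · exact h7.symm

end Pool.Agent.H48.CNX
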