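import Pool.Agent.H17.CX.Targets

/-!
# CNX: regularity at all points of the component (row REG)
-/

set_option autoImplicit false

open MvPolynomial SC Pool.Agent.H27.LV
open Pool.Agent.H92.SF Pool.Agent.H3.SF Pool.Agent.H17.SD Pool.Agent.H17.SFG Pool.Agent.H17.CX

namespace Pool.Agent.H48.CNX

theorem pf_REG (hLOA : T_LOA) : T_REG := by
  intro k F σ _ _ _ _ _ _ X dd m G g Q hS hC t j a
  have hQ := hC.prime
  induction j with
  | zero =>
    intro p b ha _ s hs hv
    refine ⟨0, t, 1, a, isHomogeneous_one σ k, ha, by ring, by simp, by simp⟩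
  | succ j ih =>
    intro p b ha hR s hs hv
    have hR' : Rgl X G Q j a p (b * G) := by
      refine ⟨hR.1, ?_⟩
      rw [hR.2]
      congr 1
      ring
    obtain ⟨d1, e1, p1, b1, hp1, hb1, hde, hs1, heq⟩ := ih p (b * G) ha hR' s hs hv
    have hcan : aeval X (p * b1) = aeval X (p1 * b * G) := by
      have h1 : aeval X (p * b1) * aeval X G ^ j = aeval X (p1 * b * G) * aeval X G ^ j := by
        have h2 := hR.2
        simp only [map_mul, map_pow] at h2 heq ⊢
        calc aeval X p * aeval X b1 * aeval X G ^ j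
            = aeval X p * (aeval X b1 * aeval X G ^ j) := by ring
          _ = aeval X p * (aeval X p1 * aeval X a) := by rw [heq]
          _ = aeval X p1 * (aeval X p * aeval X a) := by ring
          _ = aeval X p1 * (aeval X b * aeval X G ^ (j + 1)) := by rw [h2]
          _ = aeval X p1 * aeval X b * aeval X G * aeval X G ^ j := by ring
      exact mul_right_cancel₀ (pow_ne_zero j hS.G0) h1
    have hbQ : b1 ∈ Q := by
      have h1 : p * b1 - p1 * b * G ∈ Q := hC.ker _ (by rw [map_sub, hcan, sub_self])
      have h2 : p1 * b * G ∈ Q := Ideal.mul_mem_left _ _ hC.mem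
      have h3 : p * b1 ∈ Q := by
        have h4 := Q.add_mem h1 h2
        rwa [sub_add_cancel] at h4
      exact (hQ.mem_or_mem h3).resolve_left hR.1
    obtain ⟨d2, p2, q, hp2, hq, hs2, heq2⟩ := hLOA k F σ X dd m G g Q hS hC e1 b1 hb1 hbQ s hs hv
    refine ⟨d2 + m + d1, d2 + e1, p2 * p1, q, hp2.mul hp1, hq, ?_, ?_, ?_⟩
    · have h1 : (j + 1) * m = j * m + m := by ring
      rw [h1]
      omega
    · rw [map_mul]
      exact mul_ne_zero hs2 hs1
    · simp only [map_mul, map_pow] at heq heq2 ⊢
      calc aeval X p2 * aeval X p1 * aeval X a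
          = aeval X p2 * (aeval X p1 * aeval X a) := by ring
        _ = aeval X p2 * (aeval X b1 * aeval X G ^ j) := by rw [heq]
        _ = (aeval X p2 * aeval X b1) * aeval X G ^ j := by ring
        _ = (aeval X q * aeval X G) * aeval X G ^ j := by rw [heq2]
        _ = aeval X q * aeval X G ^ (j + 1) := by ring

end Pool.Agent.H48.CNX
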